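import Mathlib

set_option autoImplicit false
open MeasureTheory ProbabilityTheory Set
open scoped ENNReal

namespace Pool.Agent.W168.SV

/-- one branch of the inverse of `t ↦ t - c / t` -/
noncomputable def br (e c y : ℝ) : ℝ := (y + e * Real.sqrt (y ^ 2 + 4 * c)) / 2

lemma sqrt_pos' {c : ℝ} (hc : 0 < c) (y : ℝ) : 0 < Real.sqrt (y ^ 2 + 4 * c) :=
  Real.sqrt_pos.2 (by positivity)

lemma abs_lt_sqrt' {c : ℝ} (hc : 0 < c) (y : ℝ) : |y| < Real.sqrt (y ^ 2 + 4 * c) := by
  rw [← Real.sqrt_sq_eq_abs]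
  exact Real.sqrt_lt_sqrt (by positivity) (by linarith)

lemma br_mul {c : ℝ} (hc : 0 < c) {e : ℝ} (he : e ^ 2 = 1) (y : ℝ) :
    br e c y ^ 2 - y * br e c y = c := by
  have h := Real.sq_sqrt (show (0:ℝ) ≤ y ^ 2 + 4 * c by positivity)
  unfold br
  have : ((y + e * Real.sqrt (y ^ 2 + 4 * c)) / 2) ^ 2 - y * ((y + e * Real.sqrt (y ^ 2 + 4 * c)) / 2)
    = (e ^ 2 * Real.sqrt (y ^ 2 + 4 * c) ^ 2 - y ^ 2) / 4 := by ring
  rw [this, he, h]; ring

lemma br_ne {c : ℝ} (hc : 0 < c) {e : ℝ} (he : e ^ 2 = 1) (y : ℝ) : br e c y ≠ 0 := by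
  intro h
  have := br_mul hc he y
  rw [h] at this; simp at this; linarith

lemma br_phi {c : ℝ} (hc : 0 < c) {e : ℝ} (he : e ^ 2 = 1) (y : ℝ) :
    br e c y - c / br e c y = y := by
  have h := br_mul hc he y
  have h0 := br_ne hc he y
  rw [sub_eq_iff_eq_add, ← sub_eq_iff_eq_add', eq_div_iff h0]
  linarith

lemma br_inj {c : ℝ} (hc : 0 < c) {e : ℝ} (he : e ^ 2 = 1) : Function.Injective (br e c) := by
  intro a b h
  rw [← br_phi hc he a, ← br_phi hc he b, h]

lemma br_deriv {c : ℝ} (hc : 0 < c) (e y : ℝ) :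
    HasDerivAt (br e c) ((1 + e * (y / Real.sqrt (y ^ 2 + 4 * c))) / 2) y := by
  unfold br
  have h1 : HasDerivAt (fun y : ℝ => y ^ 2 + 4 * c) (2 * y) y := by
    simpa using (hasDerivAt_pow 2 y).add_const (4 * c)
  have h2 := h1.sqrt (by positivity : y ^ 2 + 4 * c ≠ 0)
  have h3 := (((hasDerivAt_id y).add (h2.const_mul e)).div_const 2)
  have h4 : HasDerivAt (fun y : ℝ => (y + e * Real.sqrt (y ^ 2 + 4 * c)) / 2)
    ((1 + e * (2 * y / (2 * Real.sqrt (y ^ 2 + 4 * c)))) / 2) y := h3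
  refine h4.congr_deriv ?_
  rw [mul_div_mul_left _ _ (two_ne_zero)]

lemma br_image_pos {c : ℝ} (hc : 0 < c) : br 1 c '' univ = Ioi 0 := by
  ext t
  simp only [image_univ, mem_range, mem_Ioi]
  constructor
  · rintro ⟨y, rfl⟩
    unfold br
    have := (abs_lt.1 (abs_lt_sqrt' hc y)).1
    linarith
  · intro ht
    refine ⟨t - c / t, ?_⟩
    have h1 : (t - c / t) ^ 2 + 4 * c = (t + c / t) ^ 2 := by
      have := ht.ne'
      field_simp; ring
    unfold br
    rw [h1, Real.sqrt_sq (by positivity)]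
    ring

lemma br_image_neg {c : ℝ} (hc : 0 < c) : br (-1) c '' univ = Iio 0 := by
  ext t
  simp only [image_univ, mem_range, mem_Iio]
  constructor
  · rintro ⟨y, rfl⟩
    unfold br
    have := (abs_lt.1 (abs_lt_sqrt' hc y)).2
    linarith
  · intro ht
    refine ⟨t - c / t, ?_⟩
    have h1 : (t - c / t) ^ 2 + 4 * c = (-(t + c / t)) ^ 2 := by
      have := ht.ne
      field_simp; ring
    unfold br
    have h2 : 0 ≤ -(t + c / t) := by
      have : c / t < 0 := div_neg_of_pos_of_neg hc ht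
      linarith
    rw [h1, Real.sqrt_sq h2]
    ring

/-- Glasser / Cauchy-Schlomilch substitution. -/
lemma glasser {c : ℝ} (hc : 0 < c) (h : ℝ → ℝ≥0∞) (hm : Measurable h) :
    ∫⁻ t, h (t - c / t) = ∫⁻ y, h y := by
  have key : ∀ e : ℝ, e ^ 2 = 1 → ∫⁻ t in br e c '' univ, h (t - c / t) =
      ∫⁻ y, ENNReal.ofReal ((1 + e * (y / Real.sqrt (y ^ 2 + 4 * c))) / 2) * h y := by
    intro e he
    rw [lintegral_image_eq_lintegral_abs_deriv_mul MeasurableSet.univ
      (fun y _ => (br_deriv hc e y).hasDerivWithinAt) ((br_inj hc he).injOn)]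
    rw [Measure.restrict_univ]
    refine lintegral_congr fun y => ?_
    rw [br_phi hc he y, abs_of_nonneg]
    have h1 := abs_lt_sqrt' hc y
    have h0 := sqrt_pos' hc y
    have : |y / Real.sqrt (y ^ 2 + 4 * c)| ≤ 1 := by
      rw [abs_div, abs_of_pos h0]
      exact (div_le_one h0).2 h1.le
    have h2 := abs_le.1 this
    have he' : e = 1 ∨ e = -1 := by
      have : (e - 1) * (e + 1) = 0 := by linarith [he, sq e]
      rcases mul_eq_zero.1 this with h | h
      · left; linarith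
      · right; linarith
    rcases he' with h | h
    · rw [h]; linarith [h2.1, h2.2]
    · rw [h]; linarith [h2.1, h2.2]
  have hz : ∫⁻ t, h (t - c / t) =
      (∫⁻ t in Ioi 0, h (t - c / t)) + ∫⁻ t in Iio 0, h (t - c / t) := by
    rw [← lintegral_add_compl (fun t => h (t - c / t)) (measurableSet_Ioi (a := (0:ℝ))), compl_Ioi,
      (setLIntegral_congr Iio_ae_eq_Iic).symm]
  have k1 := key 1 (by norm_num)
  have k2 := key (-1) (by norm_num)
  rw [br_image_pos hc] at k1
  rw [br_image_neg hc] at k2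
  rw [hz, k1, k2, ← lintegral_add_left]
  · refine lintegral_congr fun y => ?_
    rw [← add_mul, ← ENNReal.ofReal_add]
    · have : (1 + 1 * (y / Real.sqrt (y ^ 2 + 4 * c))) / 2 +
          (1 + -1 * (y / Real.sqrt (y ^ 2 + 4 * c))) / 2 = 1 := by ring
      rw [this]; simp
    all_goals
      have h1 := abs_lt_sqrt' hc y
      have h0 := sqrt_pos' hc y
      have : |y / Real.sqrt (y ^ 2 + 4 * c)| ≤ 1 := by
        rw [abs_div, abs_of_pos h0]
        exact (div_le_one h0).2 h1.le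
      have h2 := abs_le.1 this
      linarith [h2.1, h2.2]
  · refine Measurable.mul ?_ hm
    refine ENNReal.measurable_ofReal.comp ?_
    fun_prop

/-- `E exp(-c^2/(2 t^2)) = exp(-c)` for a standard Gaussian `t`. -/
lemma levy {c : ℝ} (hc : 0 < c) :
    ∫⁻ t, ENNReal.ofReal (Real.exp (-(c ^ 2 / (2 * t ^ 2)))) ∂(gaussianReal 0 1) =
      ENNReal.ofReal (Real.exp (-c)) := by
  have hg : gaussianReal 0 1 = volume.withDensity (gaussianPDF 0 1) :=
    gaussianReal_of_var_ne_zero 0 one_ne_zero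
  rw [hg, lintegral_withDensity_eq_lintegral_mul _ (measurable_gaussianPDF 0 1)
    (by fun_prop)]
  have h1 : ∀ t : ℝ, t ≠ 0 → (gaussianPDF 0 1 * fun t : ℝ =>
      ENNReal.ofReal (Real.exp (-(c ^ 2 / (2 * t ^ 2))))) t =
      ENNReal.ofReal (Real.exp (-c)) * gaussianPDF 0 1 (t - c / t) := by
    intro t ht
    simp only [Pi.mul_apply, gaussianPDF]
    rw [← ENNReal.ofReal_mul (gaussianPDFReal_nonneg _ _ _), ← ENNReal.ofReal_mul (Real.exp_nonneg _)]
    congr 1
    simp only [gaussianPDFReal]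
    rw [mul_assoc, ← Real.exp_add, mul_left_comm, ← Real.exp_add]
    congr 2
    simp only [sub_zero, NNReal.coe_one]
    field_simp
    ring
  have h2 : ∫⁻ t, (gaussianPDF 0 1 * fun t : ℝ =>
      ENNReal.ofReal (Real.exp (-(c ^ 2 / (2 * t ^ 2))))) t =
      ∫⁻ t, ENNReal.ofReal (Real.exp (-c)) * gaussianPDF 0 1 (t - c / t) := by
    refine lintegral_congr_ae ?_
    have : ∀ᵐ t : ℝ, t ≠ 0 := by
      rw [ae_iff]; simp
    filter_upwards [this] with t ht using h1 t ht
  rw [h2, lintegral_const_mul _ (by fun_prop), glasser hc _ (measurable_gaussianPDF 0 1),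
    lintegral_gaussianPDF_eq_one 0 one_ne_zero, mul_one]

end Pool.Agent.W168.SV
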