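import Mathlib
import Pool.Agent.W168.SV.OneD

set_option autoImplicit false
open MeasureTheory ProbabilityTheory Set
open scoped ENNReal

namespace Pool.Agent.W168.SV

/-- weight of the shifted Gaussian, symmetrised -/
noncomputable def wt (m s : ℝ) : ℝ := Real.cosh (m * s) * Real.exp (-(m ^ 2) / 2)

lemma wt_eq (m s : ℝ) : wt m s =
    (Real.exp (m * s - m ^ 2 / 2) + Real.exp ((-m) * s - m ^ 2 / 2)) / 2 := by
  unfold wt
  rw [Real.cosh_eq, sub_eq_add_neg (m * s), sub_eq_add_neg (-m * s), Real.exp_add, Real.exp_add,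
    neg_mul, neg_div]
  ring

lemma wt_nonneg (m s : ℝ) : 0 ≤ wt m s :=
  mul_nonneg (Real.cosh_pos _).le (Real.exp_nonneg _)

lemma shift_exp (m : ℝ) (g : ℝ → ℝ≥0∞) (hg : Measurable g) :
    ∫⁻ t, g (m + t) ∂(gaussianReal 0 1) =
      ∫⁻ s, g s * ENNReal.ofReal (Real.exp (m * s - m ^ 2 / 2)) ∂(gaussianReal 0 1) := by
  have h1 : ∫⁻ t, g (m + t) ∂(gaussianReal 0 1) = ∫⁻ s, g s ∂(gaussianReal m 1) := by
    have := gaussianReal_map_const_add (μ := 0) (v := 1) m
    rw [zero_add] at this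
    rw [← this, lintegral_map hg (by fun_prop)]
  rw [h1, gaussianReal_of_var_ne_zero m one_ne_zero, gaussianReal_of_var_ne_zero 0 one_ne_zero,
    lintegral_withDensity_eq_lintegral_mul _ (measurable_gaussianPDF m 1) hg,
    lintegral_withDensity_eq_lintegral_mul _ (measurable_gaussianPDF 0 1) (by fun_prop)]
  refine lintegral_congr fun s => ?_
  simp only [Pi.mul_apply, gaussianPDF]
  rw [mul_left_comm, ← ENNReal.ofReal_mul (gaussianPDFReal_nonneg _ _ _), mul_comm]
  congr 2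
  simp only [gaussianPDFReal, mul_assoc, ← Real.exp_add]
  congr 2
  simp only [sub_zero, NNReal.coe_one]
  ring

lemma gauss_symm (g : ℝ → ℝ≥0∞) (hg : Measurable g) :
    ∫⁻ t, g (-t) ∂(gaussianReal 0 1) = ∫⁻ t, g t ∂(gaussianReal 0 1) := by
  have := gaussianReal_map_neg (μ := 0) (v := 1)
  rw [neg_zero] at this
  conv_rhs => rw [← this]
  rw [lintegral_map hg (by fun_prop)]

/-- shift formula for even functions -/
lemma shift_even (m : ℝ) (g : ℝ → ℝ≥0∞) (hg : Measurable g) (he : ∀ t, g (-t) = g t) :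
    ∫⁻ t, g (m + t) ∂(gaussianReal 0 1) =
      ∫⁻ s, g s * ENNReal.ofReal (wt m s) ∂(gaussianReal 0 1) := by
  have h1 := shift_exp m g hg
  have h2 : ∫⁻ s, g s * ENNReal.ofReal (Real.exp (m * s - m ^ 2 / 2)) ∂(gaussianReal 0 1) =
      ∫⁻ s, g s * ENNReal.ofReal (Real.exp ((-m) * s - m ^ 2 / 2)) ∂(gaussianReal 0 1) := by
    rw [← gauss_symm _ (by fun_prop)]
    refine lintegral_congr fun s => ?_
    rw [he]
    congr 3
    ring_nf
  have h3 : ∫⁻ s, g s * ENNReal.ofReal (wt m s) ∂(gaussianReal 0 1) =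
      (∫⁻ s, g s * ENNReal.ofReal (Real.exp (m * s - m ^ 2 / 2)) ∂(gaussianReal 0 1) +
      ∫⁻ s, g s * ENNReal.ofReal (Real.exp ((-m) * s - m ^ 2 / 2)) ∂(gaussianReal 0 1)) / 2 := by
    rw [← lintegral_add_left (by fun_prop), div_eq_mul_inv, ← lintegral_mul_const _ (by fun_prop)]
    refine lintegral_congr fun s => ?_
    rw [wt_eq, ← mul_add, ← ENNReal.ofReal_add (Real.exp_nonneg _) (Real.exp_nonneg _),
      div_eq_mul_inv, ENNReal.ofReal_mul (by positivity),
      ENNReal.ofReal_inv_of_pos (by norm_num), mul_assoc]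
    simp
  rw [h3, h1, ← h2, ENNReal.add_div, ENNReal.add_halves]

lemma wt_int (m : ℝ) : ∫⁻ s, ENNReal.ofReal (wt m s) ∂(gaussianReal 0 1) = 1 := by
  have := shift_even m (fun _ => 1) measurable_const (fun _ => rfl)
  simpa using this.symm

lemma cheb {f : ℝ → ℝ} (hf : Measurable f) (h0 : ∀ t, 0 ≤ f t)
    (hmono : ∀ s t : ℝ, s ≠ 0 → |s| ≤ |t| → f s ≤ f t) (m : ℝ) :
    ∫⁻ s, ENNReal.ofReal (f s) ∂(gaussianReal 0 1) ≤
      ∫⁻ s, ENNReal.ofReal (f s) * ENNReal.ofReal (wt m s) ∂(gaussianReal 0 1) := by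
  rcases eq_or_ne m 0 with rfl | hm
  · refine le_of_eq (lintegral_congr fun s => ?_)
    simp [wt]
  have hwm : Measurable (wt m) := by unfold wt; fun_prop
  -- threshold
  set s0 : ℝ := Real.arcosh (Real.exp (m ^ 2 / 2)) / |m| with hs0
  have hms : 0 < |m| := abs_pos.2 hm
  have hE : 1 ≤ Real.exp (m ^ 2 / 2) := Real.one_le_exp (by positivity)
  have hE' : 1 < Real.exp (m ^ 2 / 2) := by
    have : 0 < m ^ 2 / 2 := by positivity
    simpa using Real.exp_lt_exp.2 this
  have hcos : Real.cosh (|m| * s0) = Real.exp (m ^ 2 / 2) := by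
    rw [hs0, mul_div_cancel₀ _ hms.ne', Real.cosh_arcosh hE]
  have hs0ne : s0 ≠ 0 := by
    intro h
    rw [h, mul_zero, Real.cosh_zero] at hcos
    linarith
  have hcos' : ∀ s, Real.cosh (m * s) = Real.cosh (|m| * s) := by
    intro s
    rcases abs_choice m with h | h <;> rw [h]
    rw [neg_mul, Real.cosh_neg]
  have hee : Real.exp (m ^ 2 / 2) * Real.exp (-(m ^ 2) / 2) = 1 := by
    rw [← Real.exp_add]; simp; ring
  have hw1 : ∀ s, |s0| ≤ |s| → 1 ≤ wt m s := by
    intro s hs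
    unfold wt
    rw [hcos']
    have : Real.cosh (|m| * s0) ≤ Real.cosh (|m| * s) := by
      rw [Real.cosh_le_cosh, abs_mul, abs_mul]
      exact mul_le_mul_of_nonneg_left hs (abs_nonneg _)
    rw [hcos] at this
    calc (1 : ℝ) = Real.exp (m ^ 2 / 2) * Real.exp (-(m ^ 2) / 2) := hee.symm
      _ ≤ _ := mul_le_mul_of_nonneg_right this (Real.exp_nonneg _)
  have hw2 : ∀ s, |s| ≤ |s0| → wt m s ≤ 1 := by
    intro s hs
    unfold wt
    rw [hcos']
    have : Real.cosh (|m| * s) ≤ Real.cosh (|m| * s0) := by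
      rw [Real.cosh_le_cosh, abs_mul, abs_mul]
      exact mul_le_mul_of_nonneg_left hs (abs_nonneg _)
    rw [hcos] at this
    calc _ ≤ Real.exp (m ^ 2 / 2) * Real.exp (-(m ^ 2) / 2) :=
          mul_le_mul_of_nonneg_right this (Real.exp_nonneg _)
      _ = 1 := hee
  have hpt : ∀ᵐ s ∂(gaussianReal 0 1), f s + f s0 * wt m s ≤ f s * wt m s + f s0 := by
    have hn : ∀ᵐ s ∂(gaussianReal 0 1), s ≠ 0 := by
      rw [ae_iff]
      simp only [ne_eq, not_not, ofPred_eq_eq_singleton]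
      have := gaussianReal_absolutelyContinuous 0 (v := 1) one_ne_zero
      exact this (by simp)
    filter_upwards [hn] with s hs
    rcases le_total |s| |s0| with h | h
    · nlinarith [hw2 s h, hmono s s0 hs h]
    · nlinarith [hw1 s h, hmono s0 s hs0ne h]
  have hI : ∫⁻ s, ENNReal.ofReal (f s + f s0 * wt m s) ∂(gaussianReal 0 1) ≤
      ∫⁻ s, ENNReal.ofReal (f s * wt m s + f s0) ∂(gaussianReal 0 1) :=
    lintegral_mono_ae (hpt.mono fun s hs => ENNReal.ofReal_le_ofReal hs)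
  have e1 : ∫⁻ s, ENNReal.ofReal (f s + f s0 * wt m s) ∂(gaussianReal 0 1) =
      ∫⁻ s, ENNReal.ofReal (f s) ∂(gaussianReal 0 1) + ENNReal.ofReal (f s0) := by
    have : ∀ s, ENNReal.ofReal (f s + f s0 * wt m s) =
        ENNReal.ofReal (f s) + ENNReal.ofReal (f s0) * ENNReal.ofReal (wt m s) := by
      intro s
      rw [ENNReal.ofReal_add (h0 s) (mul_nonneg (h0 _) (wt_nonneg m s)), ENNReal.ofReal_mul (h0 _)]
    simp_rw [this]
    rw [lintegral_add_left (by fun_prop), lintegral_const_mul _ (by fun_prop), wt_int, mul_one]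
  have e2 : ∫⁻ s, ENNReal.ofReal (f s * wt m s + f s0) ∂(gaussianReal 0 1) =
      ∫⁻ s, ENNReal.ofReal (f s) * ENNReal.ofReal (wt m s) ∂(gaussianReal 0 1) +
        ENNReal.ofReal (f s0) := by
    have : ∀ s, ENNReal.ofReal (f s * wt m s + f s0) =
        ENNReal.ofReal (f s) * ENNReal.ofReal (wt m s) + ENNReal.ofReal (f s0) := by
      intro s
      rw [ENNReal.ofReal_add (mul_nonneg (h0 _) (wt_nonneg m s)) (h0 _), ENNReal.ofReal_mul (h0 _)]
    simp_rw [this]
    rw [lintegral_add_right _ measurable_const]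
    simp
  rw [e1, e2] at hI
  exact (ENNReal.add_le_add_iff_right ENNReal.ofReal_ne_top).1 hI

/-- For a Gaussian `X` of mean `m` and variance one, `E exp(-c^2/(2 X^2)) ≥ exp(-c)`. -/
lemma levy_shift {c : ℝ} (hc : 0 < c) (m : ℝ) :
    ENNReal.ofReal (Real.exp (-c)) ≤
      ∫⁻ t, ENNReal.ofReal (Real.exp (-(c ^ 2 / (2 * (m + t) ^ 2)))) ∂(gaussianReal 0 1) := by
  have h := shift_even m (fun t => ENNReal.ofReal (Real.exp (-(c ^ 2 / (2 * t ^ 2)))))
    (by fun_prop) (fun t => by simp)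
  rw [h, ← levy hc]
  refine cheb (f := fun t => Real.exp (-(c ^ 2 / (2 * t ^ 2)))) (by fun_prop)
    (fun t => Real.exp_nonneg _) ?_ m
  intro s t hs hst
  refine Real.exp_le_exp.2 (neg_le_neg ?_)
  have h1 : s ^ 2 ≤ t ^ 2 := sq_le_sq.2 hst
  have h2 : 0 < s ^ 2 := by positivity
  exact div_le_div_of_nonneg_left (by positivity) (by positivity) (by linarith)

end Pool.Agent.W168.SV
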