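import Mathlib
import Pool.Agent.W168.SV.Shift

set_option autoImplicit false
open MeasureTheory ProbabilityTheory Set Matrix
open scoped ENNReal RealInnerProductSpace

namespace Pool.Agent.W168.SV

/-- the standard Gaussian on `Fin n → ℝ` -/
noncomputable abbrev gv (ι : Type) [Fintype ι] : Measure (ι → ℝ) :=
  Measure.pi (fun _ : ι => gaussianReal 0 1)

lemma map_toLp (ι : Type) [Fintype ι] :
    (gv ι).map (WithLp.toLp 2) = stdGaussian (EuclideanSpace ℝ ι) := map_pi_eq_stdGaussian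

lemma map_ofLp (ι : Type) [Fintype ι] :
    (stdGaussian (EuclideanSpace ℝ ι)).map (WithLp.ofLp) = gv ι := by
  rw [← map_toLp, Measure.map_map (by fun_prop) (by fun_prop)]
  have : (WithLp.ofLp : EuclideanSpace ℝ ι → (ι → ℝ)) ∘ (WithLp.toLp 2) = id := by
    ext x; rfl
  rw [this, Measure.map_id]

/-- law of a unit linear functional -/
lemma map_dot {ι : Type} [Fintype ι] (u : ι → ℝ) (hu : ∑ i, u i ^ 2 = 1) :
    (gv ι).map (fun g => ∑ i, g i * u i) = gaussianReal 0 1 := by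
  have h1 : (fun g : ι → ℝ => ∑ i, g i * u i) =
      (innerSL ℝ (WithLp.toLp 2 u : EuclideanSpace ℝ ι)) ∘ (WithLp.toLp 2) := by
    ext g
    simp [PiLp.inner_apply]
  rw [h1, ← Measure.map_map (by fun_prop) (by fun_prop), map_toLp, IsGaussian.map_eq_gaussianReal,
    integral_strongDual_stdGaussian, variance_dual_stdGaussian]
  congr 1
  rw [innerSL_apply_norm, EuclideanSpace.real_norm_sq_eq]
  simp [hu]

lemma lintegral_dot {ι : Type} [Fintype ι] (u : ι → ℝ) (hu : ∑ i, u i ^ 2 = 1) (f : ℝ → ℝ≥0∞)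
    (hf : Measurable f) :
    ∫⁻ g, f (∑ i, g i * u i) ∂(gv ι) = ∫⁻ t, f t ∂(gaussianReal 0 1) := by
  rw [← map_dot u hu, lintegral_map hf (by fun_prop)]

/-- invariance of the Gaussian vector under an isometry of the Euclidean norm -/
lemma map_isom {ι : Type} [Fintype ι] (T : (ι → ℝ) →ₗ[ℝ] (ι → ℝ))
    (hT : ∀ x, ∑ i, T x i ^ 2 = ∑ i, x i ^ 2) : (gv ι).map T = gv ι := by
  let L : EuclideanSpace ℝ ι →ₗᵢ[ℝ] EuclideanSpace ℝ ι :=
    { toLinearMap := (WithLp.linearEquiv 2 ℝ (ι → ℝ)).symm.toLinearMap ∘ₗ T ∘ₗ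
        (WithLp.linearEquiv 2 ℝ (ι → ℝ)).toLinearMap
      norm_map' := by
        intro x
        have : ‖(WithLp.toLp 2 (T (WithLp.ofLp x)) : EuclideanSpace ℝ ι)‖ ^ 2 = ‖x‖ ^ 2 := by
          rw [EuclideanSpace.real_norm_sq_eq, EuclideanSpace.real_norm_sq_eq]
          exact hT _
        exact (sq_eq_sq₀ (norm_nonneg _) (norm_nonneg _)).1 this }
  let e : EuclideanSpace ℝ ι ≃ₗᵢ[ℝ] EuclideanSpace ℝ ι := L.toLinearIsometryEquiv rfl
  have h1 : (T : (ι → ℝ) → (ι → ℝ)) = (WithLp.ofLp) ∘ e ∘ (WithLp.toLp 2) := by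
    ext x; rfl
  have hTm : Measurable e := e.continuous.measurable
  rw [h1, ← Measure.map_map (by fun_prop) (hTm.comp (by fun_prop)), ← Measure.map_map hTm (by fun_prop),
    map_toLp, stdGaussian_map, map_ofLp]

end Pool.Agent.W168.SV
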