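import Mathlib
import Pool.Agent.W168.SV.Vec
import Pool.Agent.W813.SV.Stmt

set_option autoImplicit false
open MeasureTheory ProbabilityTheory Set Matrix
open scoped ENNReal RealInnerProductSpace
open Pool.Agent.W813.SV (gm gram)

namespace Pool.Agent.W168.SV

/-- curry: the nested product is the image of the product over pairs -/
lemma gm_curry (n : ℕ) : (gv (Fin n × Fin n)).map (MeasurableEquiv.curry (Fin n) (Fin n) ℝ) = gm n := by
  have := Measure.infinitePi_map_curry (fun (_ : Fin n) (_ : Fin n) => gaussianReal 0 1)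
  simp only [Measure.infinitePi_eq_pi] at this
  exact this

/-- left multiplication by an orthogonal matrix preserves the law -/
lemma gm_rot {n : ℕ} (Q : Matrix (Fin n) (Fin n) ℝ) (hQ : Qᵀ * Q = 1) :
    (gm n).map (fun G : Fin n → Fin n → ℝ => (fun i j => (Q * Matrix.of G) i j)) = gm n := by
  let T : (Fin n × Fin n → ℝ) →ₗ[ℝ] (Fin n × Fin n → ℝ) :=
    { toFun := fun x p => ∑ k, Q p.1 k * x (k, p.2)
      map_add' := by
        intro x y; ext p; simp [mul_add, Finset.sum_add_distrib]
      map_smul' := by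
        intro c x; ext p; simp [Finset.mul_sum, mul_left_comm] }
  have hT : ∀ x, ∑ p, T x p ^ 2 = ∑ p, x p ^ 2 := by
    intro x
    have hcol : ∀ v : Fin n → ℝ, ∑ i, (∑ k, Q i k * v k) ^ 2 = ∑ k, v k ^ 2 := by
      intro v
      have h1 : (Q *ᵥ v) ⬝ᵥ (Q *ᵥ v) = v ⬝ᵥ v := by
        rw [Matrix.dotProduct_mulVec, Matrix.vecMul_mulVec, hQ, Matrix.vecMul_one]
      simpa [dotProduct, mulVec, sq] using h1
    rw [Fintype.sum_prod_type_right, Fintype.sum_prod_type_right]
    exact Finset.sum_congr rfl fun j _ => hcol (fun k => x (k, j))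
  have h := map_isom T hT
  have hTm : Measurable T := T.continuous_of_finiteDimensional.measurable
  have hR : Measurable (fun G : Fin n → Fin n → ℝ => (fun i j => (Q * Matrix.of G) i j)) := by
    refine measurable_pi_lambda _ fun i => measurable_pi_lambda _ fun j => ?_
    simp only [Matrix.mul_apply, Matrix.of_apply]
    fun_prop
  rw [← gm_curry, Measure.map_map hR (MeasurableEquiv.measurable _)]
  have hc : (fun G : Fin n → Fin n → ℝ => (fun i j => (Q * Matrix.of G) i j)) ∘
      (MeasurableEquiv.curry (Fin n) (Fin n) ℝ) = (MeasurableEquiv.curry (Fin n) (Fin n) ℝ) ∘ T := by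
    ext x i j
    simp [T, Matrix.mul_apply, MeasurableEquiv.coe_curry, Function.curry]
  rw [hc, ← Measure.map_map (MeasurableEquiv.measurable _) hTm, h]

/-- product measures and absolute continuity -/
lemma pi_ac {α : Type} [MeasurableSpace α] (μ ν : Measure α) [SigmaFinite μ] [SigmaFinite ν]
    (h : μ ≪ ν) (n : ℕ) : Measure.pi (fun _ : Fin n => μ) ≪ Measure.pi (fun _ : Fin n => ν) := by
  induction n with
  | zero =>
    have : Measure.pi (fun _ : Fin 0 => μ) = Measure.pi (fun _ : Fin 0 => ν) := by
      rw [Measure.pi_of_empty, Measure.pi_of_empty]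
    rw [this]
  | succ n ih =>
    have h1 := (measurePreserving_piFinSuccAbove (fun _ : Fin (n+1) => μ) 0).symm
    have h2 := (measurePreserving_piFinSuccAbove (fun _ : Fin (n+1) => ν) 0).symm
    rw [← h1.map_eq, ← h2.map_eq]
    exact (h.prod ih).map (MeasurableEquiv.measurable _)

lemma gm_ac (n : ℕ) : gm n ≪ (volume : Measure (Fin n → Fin n → ℝ)) := by
  refine pi_ac _ _ ?_ n
  exact pi_ac _ _ (gaussianReal_absolutelyContinuous 0 one_ne_zero) n

/-- a Gaussian matrix with any mean is almost surely invertible -/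
lemma ae_det_ne {n : ℕ} (M : Matrix (Fin n) (Fin n) ℝ) :
    ∀ᵐ G ∂(gm n), (M + Matrix.of G).det ≠ 0 := by
  refine gm_ac n ?_
  let L : ℝ →ₗ[ℝ] (Fin n → Fin n → ℝ) :=
    { toFun := fun s i j => s * (1 : Matrix (Fin n) (Fin n) ℝ) i j
      map_add' := by intro a b; ext i j; simp [add_mul]
      map_smul' := by intro c a; ext i j; simp [mul_assoc] }
  have hcont : Continuous (fun G : Fin n → Fin n → ℝ => (M + Matrix.of G).det) := by
    refine Continuous.matrix_det ?_
    exact continuous_const.add (continuous_id : Continuous (fun G : Fin n → Fin n → ℝ => G))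
  have hs : MeasurableSet {G : Fin n → Fin n → ℝ | (M + Matrix.of G).det ≠ 0} :=
    (hcont.measurable (measurableSet_singleton 0)).compl
  refine ae_mem_of_ae_add_linearMap_mem L volume volume hs ?_
  intro G
  have hfin : {s : ℝ | ¬ (G + L s ∈ {G : Fin n → Fin n → ℝ | (M + Matrix.of G).det ≠ 0})}.Finite := by
    have hsub : {s : ℝ | ¬ (G + L s ∈ {G : Fin n → Fin n → ℝ | (M + Matrix.of G).det ≠ 0})} ⊆
        {s : ℝ | (-(M + Matrix.of G)).charpoly.IsRoot s} := by
      intro s hs
      simp only [mem_setOf_eq, ne_eq, not_not] at hs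
      simp only [mem_setOf_eq, Polynomial.IsRoot, Matrix.eval_charpoly]
      rw [← hs]
      congr 1
      ext i j
      simp [L, Matrix.scalar_apply, Matrix.diagonal_apply, Matrix.one_apply]
      ring
    refine Set.Finite.subset ?_ hsub
    exact Polynomial.finite_setOf_isRoot (Matrix.charpoly_monic _).ne_zero
  rw [ae_iff]
  exact hfin.measure_zero _

end Pool.Agent.W168.SV
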