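import Mathlib
import Pool.Agent.W168.SV.Mat

set_option autoImplicit false
open MeasureTheory ProbabilityTheory Set Matrix
open scoped ENNReal RealInnerProductSpace

namespace Pool.Agent.W168.SV

lemma oneD_quad {μ : ℝ} (hμ : 0 < μ) :
    ∫ y, Real.exp (-((μ - 1) * y ^ 2) / 2) ∂(gaussianReal 0 1) = (Real.sqrt μ)⁻¹ := by
  rw [integral_gaussianReal_eq_integral_smul one_ne_zero]
  have h1 : ∀ y : ℝ, gaussianPDFReal 0 1 y • Real.exp (-((μ - 1) * y ^ 2) / 2) =
      (Real.sqrt (2 * Real.pi))⁻¹ * Real.exp (-(μ / 2) * y ^ 2) := by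
    intro y
    simp only [gaussianPDFReal, smul_eq_mul, mul_assoc, ← Real.exp_add, NNReal.coe_one, mul_one,
      sub_zero]
    congr 2
    ring
  simp_rw [h1]
  rw [integral_const_mul, integral_gaussian]
  rw [← Real.sqrt_inv, ← Real.sqrt_inv, ← Real.sqrt_mul (by positivity)]
  congr 1
  have := Real.pi_pos.ne'
  field_simp

/-- Gaussian integral of a quadratic form -/
lemma quad {n : ℕ} (R : Matrix (Fin n) (Fin n) ℝ) (hR : R.PosDef) :
    ∫⁻ z, ENNReal.ofReal (Real.exp (-(z ⬝ᵥ R *ᵥ z - z ⬝ᵥ z) / 2)) ∂(gv (Fin n)) =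
      ENNReal.ofReal ((Real.sqrt R.det)⁻¹) := by
  have hH := hR.isHermitian
  set b := hH.eigenvectorBasis with hb
  set ev := hH.eigenvalues with hev
  have hpos : ∀ i, 0 < ev i := hR.eigenvalues_pos
  have h1 : ∫⁻ z, ENNReal.ofReal (Real.exp (-(z ⬝ᵥ R *ᵥ z - z ⬝ᵥ z) / 2)) ∂(gv (Fin n)) =
      ∫⁻ z : EuclideanSpace ℝ (Fin n), ENNReal.ofReal (Real.exp (-(z.ofLp ⬝ᵥ R *ᵥ z.ofLp -
        z.ofLp ⬝ᵥ z.ofLp) / 2)) ∂(stdGaussian (EuclideanSpace ℝ (Fin n))) := by
    rw [← map_ofLp, lintegral_map (by unfold dotProduct mulVec dotProduct; fun_prop) (by fun_prop)]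
  rw [h1, stdGaussian_eq_map_pi_orthonormalBasis b,
    lintegral_map (by unfold dotProduct mulVec dotProduct; fun_prop) (by fun_prop)]
  have h2 : ∀ x : Fin n → ℝ,
      ENNReal.ofReal (Real.exp (-((∑ i, x i • b i).ofLp ⬝ᵥ R *ᵥ (∑ i, x i • b i).ofLp -
        (∑ i, x i • b i).ofLp ⬝ᵥ (∑ i, x i • b i).ofLp) / 2)) =
      ENNReal.ofReal (∏ i, Real.exp (-((ev i - 1) * x i ^ 2) / 2)) := by
    intro x
    congr 1
    rw [← Real.exp_sum]
    congr 1
    have hRb : ∀ i, R *ᵥ (b i).ofLp = ev i • (b i).ofLp := fun i => hH.mulVec_eigenvectorBasis i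
    have hbb : ∀ i j, (b i).ofLp ⬝ᵥ (b j).ofLp = if i = j then 1 else 0 := by
      intro i j
      have := orthonormal_iff_ite.1 b.orthonormal i j
      rw [PiLp.inner_apply] at this
      simp only [RCLike.inner_apply, conj_trivial] at this
      rw [← this]
      simp [dotProduct, mul_comm]
    have hs : (∑ i, x i • b i).ofLp = ∑ i, x i • (b i).ofLp := by
      simp [WithLp.ofLp_sum]
    rw [hs]
    have e1 : R *ᵥ (∑ i, x i • (b i).ofLp) = ∑ i, (x i * ev i) • (b i).ofLp := by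
      rw [Matrix.mulVec_sum]
      refine Finset.sum_congr rfl fun i _ => ?_
      rw [Matrix.mulVec_smul, hRb, smul_smul]
    have e2 : ∀ c : Fin n → ℝ, (∑ i, x i • (b i).ofLp) ⬝ᵥ (∑ i, c i • (b i).ofLp) = ∑ i, x i * c i := by
      intro c
      rw [sum_dotProduct]
      refine Finset.sum_congr rfl fun i _ => ?_
      rw [dotProduct_sum]
      simp only [smul_dotProduct, dotProduct_smul, hbb, smul_eq_mul, mul_ite, mul_one, mul_zero,
        Finset.sum_ite_eq, Finset.mem_univ, if_true]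
      ring
    rw [e1, e2, e2, ← Finset.sum_sub_distrib, neg_div, Finset.sum_div, ← Finset.sum_neg_distrib]
    refine Finset.sum_congr rfl fun i _ => ?_
    ring
  simp_rw [h2]
  have h3 : ∫ x : Fin n → ℝ, ∏ i, Real.exp (-((ev i - 1) * x i ^ 2) / 2) ∂(gv (Fin n)) =
      (Real.sqrt R.det)⁻¹ := by
    rw [integral_fintype_prod_eq_prod (f := fun i (y : ℝ) => Real.exp (-((ev i - 1) * y ^ 2) / 2))]
    simp_rw [oneD_quad (hpos _)]
    rw [Finset.prod_inv_distrib]
    congr 1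
    rw [hH.det_eq_prod_eigenvalues, Real.sqrt_eq_rpow]
    simp only [RCLike.ofReal_real_eq_id, id_eq, Real.sqrt_eq_rpow]
    rw [Real.finsetProd_rpow _ _ (fun i _ => (hpos i).le)]
  rw [← h3, ofReal_integral_eq_lintegral_ofReal]
  · by_contra hni
    rw [integral_undef hni] at h3
    have : 0 < (Real.sqrt R.det)⁻¹ := inv_pos.2 (Real.sqrt_pos.2 hR.det_pos)
    linarith
  · exact Filter.Eventually.of_forall fun x => Finset.prod_nonneg fun i _ => Real.exp_nonneg _

end Pool.Agent.W168.SV
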