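import Mathlib
import Pool.Agent.W168.SV.Quad

set_option autoImplicit false
open MeasureTheory ProbabilityTheory Set Matrix
open scoped ENNReal RealInnerProductSpace
open Pool.Agent.W813.SV (gm gram)

namespace Pool.Agent.W168.SV

/-- integrand: `exp(-d |A⁻¹ z|²/2)` on invertible matrices, zero elsewhere -/
noncomputable def Fz {n : ℕ} (d : ℝ) (A : Matrix (Fin n) (Fin n) ℝ) (z : Fin n → ℝ) : ℝ≥0∞ :=
  if A.det = 0 then 0 else ENNReal.ofReal (Real.exp (-(d * ∑ i, (A⁻¹ *ᵥ z) i ^ 2) / 2))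

lemma Fz_meas {n : ℕ} (d : ℝ) (M : Matrix (Fin n) (Fin n) ℝ) :
    Measurable (fun p : (Fin n → Fin n → ℝ) × (Fin n → ℝ) => Fz d (M + Matrix.of p.1) p.2) := by
  have hA : Continuous (fun p : (Fin n → Fin n → ℝ) × (Fin n → ℝ) =>
      (M + Matrix.of p.1 : Matrix (Fin n) (Fin n) ℝ)) :=
    continuous_const.add (continuous_fst : Continuous
      (fun p : (Fin n → Fin n → ℝ) × (Fin n → ℝ) => p.1))
  have hdet : Measurable (fun p : (Fin n → Fin n → ℝ) × (Fin n → ℝ) => (M + Matrix.of p.1).det) :=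
    (Continuous.matrix_det hA).measurable
  have hadj : ∀ i j, Measurable (fun p : (Fin n → Fin n → ℝ) × (Fin n → ℝ) =>
      (M + Matrix.of p.1).adjugate i j) := by
    intro i j
    exact ((continuous_apply j).comp ((continuous_apply i).comp (Continuous.matrix_adjugate hA))).measurable
  unfold Fz
  refine Measurable.ite (hdet (measurableSet_singleton 0)) measurable_const ?_
  refine ENNReal.measurable_ofReal.comp (Real.measurable_exp.comp ?_)
  refine Measurable.div_const (Measurable.neg (Measurable.const_mul ?_ d)) 2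
  refine Finset.measurable_sum _ fun i _ => Measurable.pow_const ?_ 2
  simp only [Matrix.inv_def, Ring.inverse_eq_inv', mulVec, dotProduct, Matrix.smul_apply, smul_eq_mul]
  refine Finset.measurable_sum _ fun j _ => ?_
  exact ((hdet.inv).mul (hadj i j)).mul (by fun_prop)

lemma Fz_meas' {n : ℕ} (d : ℝ) (M : Matrix (Fin n) (Fin n) ℝ) (z : Fin n → ℝ) :
    Measurable (fun G : Fin n → Fin n → ℝ => Fz d (M + Matrix.of G) z) :=
  (Fz_meas d M).comp (measurable_id.prodMk measurable_const)

/-- key computation when `z` is a multiple of the first basis vector -/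
lemma inner_e0 {m : ℕ} {d : ℝ} (hd : 0 < d) (M : Matrix (Fin (m+1)) (Fin (m+1)) ℝ) {r : ℝ}
    (hr : 0 < r) :
    ENNReal.ofReal (Real.exp (-(Real.sqrt d * r))) ≤
      ∫⁻ G, Fz d (M + Matrix.of G) (fun i => if i = 0 then r else 0) ∂(gm (m+1)) := by
  set z : Fin (m+1) → ℝ := fun i => if i = 0 then r else 0 with hz
  have hmp := (measurePreserving_piFinSuccAbove (fun _ : Fin (m+1) => gv (Fin (m+1))) 0).symm
  have hF := Fz_meas' d M z
  have e1 : ∫⁻ G, Fz d (M + Matrix.of G) z ∂(gm (m+1)) =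
      ∫⁻ R, ∫⁻ g, Fz d (M + Matrix.of ((MeasurableEquiv.piFinSuccAbove
        (fun _ : Fin (m+1) => Fin (m+1) → ℝ) 0).symm (g, R))) z ∂(gv (Fin (m+1)))
        ∂(Measure.pi fun _ : Fin m => gv (Fin (m+1))) := by
    have := hmp.lintegral_comp hF
    rw [← this]
    exact lintegral_prod_symm _ ((hF.comp (MeasurableEquiv.measurable _)).aemeasurable)
  rw [e1]
  -- almost sure invertibility
  have hae : ∀ᵐ R ∂(Measure.pi fun _ : Fin m => gv (Fin (m+1))), ∀ᵐ g ∂(gv (Fin (m+1))),
      (M + Matrix.of ((MeasurableEquiv.piFinSuccAbove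
        (fun _ : Fin (m+1) => Fin (m+1) → ℝ) 0).symm (g, R))).det ≠ 0 := by
    have h1 := hmp.quasiMeasurePreserving.ae (ae_det_ne M)
    have hms : MeasurableSet {p : (Fin (m+1) → ℝ) × (Fin m → Fin (m+1) → ℝ) |
        (M + Matrix.of ((MeasurableEquiv.piFinSuccAbove
        (fun _ : Fin (m+1) => Fin (m+1) → ℝ) 0).symm (p.1, p.2))).det ≠ 0} := by
      have hcont : Continuous (fun G : Fin (m+1) → Fin (m+1) → ℝ => (M + Matrix.of G).det) := by
        refine Continuous.matrix_det ?_
        exact continuous_const.add (continuous_id : Continuous (fun G : Fin (m+1) → Fin (m+1) → ℝ => G))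
      exact ((hcont.measurable.comp (MeasurableEquiv.measurable _)) (measurableSet_singleton 0)).compl
    exact (Measure.ae_ae_comm hms).1 (Measure.ae_ae_of_ae_prod h1)
  have hconst : ENNReal.ofReal (Real.exp (-(Real.sqrt d * r))) =
      ∫⁻ _R, ENNReal.ofReal (Real.exp (-(Real.sqrt d * r)))
        ∂(Measure.pi fun _ : Fin m => gv (Fin (m+1))) := by simp
  rw [hconst]
  refine lintegral_mono_ae ?_
  filter_upwards [hae] with R hR
  -- a unit vector orthogonal to the remaining rows
  set A0 : Matrix (Fin (m+1)) (Fin (m+1)) ℝ := (M + Matrix.of ((MeasurableEquiv.piFinSuccAbove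
        (fun _ : Fin (m+1) => Fin (m+1) → ℝ) 0).symm (0, R))).updateRow 0 0 with hA0
  obtain ⟨v, hv0, hv⟩ := Matrix.exists_mulVec_eq_zero_iff.2
    (Matrix.det_eq_zero_of_row_eq_zero (A := A0) 0 (fun j => by simp [hA0]))
  have hvs : 0 < ∑ i, v i ^ 2 := by
    obtain ⟨i, hi⟩ := Function.ne_iff.1 hv0
    exact Finset.sum_pos' (fun i _ => sq_nonneg _) ⟨i, Finset.mem_univ _, by
      have : v i ≠ 0 := hi
      positivity⟩
  set s := Real.sqrt (∑ i, v i ^ 2) with hs
  have hs0 : 0 < s := Real.sqrt_pos.2 hvs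
  set u : Fin (m+1) → ℝ := fun i => v i / s with hu
  have hu1 : ∑ i, u i ^ 2 = 1 := by
    simp only [hu, div_pow, ← Finset.sum_div]
    rw [hs, Real.sq_sqrt hvs.le, div_self hvs.ne']
  have huA : A0 *ᵥ u = 0 := by
    have : u = s⁻¹ • v := by ext i; simp [hu, div_eq_inv_mul]
    rw [this, Matrix.mulVec_smul, hv, smul_zero]
  have hcons : ∀ g : Fin (m+1) → ℝ, (MeasurableEquiv.piFinSuccAbove
        (fun _ : Fin (m+1) => Fin (m+1) → ℝ) 0).symm (g, R) = (Fin.cons g R : Fin (m+1) → Fin (m+1) → ℝ) := by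
    intro g
    simp [MeasurableEquiv.piFinSuccAbove, Fin.insertNthEquiv]
  set mm : ℝ := ∑ i, M 0 i * u i with hmm
  have hcomp : ∀ g : Fin (m+1) → ℝ, (M + Matrix.of ((MeasurableEquiv.piFinSuccAbove
        (fun _ : Fin (m+1) => Fin (m+1) → ℝ) 0).symm (g, R))).det ≠ 0 →
      Fz d (M + Matrix.of ((MeasurableEquiv.piFinSuccAbove
        (fun _ : Fin (m+1) => Fin (m+1) → ℝ) 0).symm (g, R))) z =
      ENNReal.ofReal (Real.exp (-((Real.sqrt d * r) ^ 2 / (2 * (mm + ∑ i, g i * u i) ^ 2)))) := by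
    intro g hg
    set A := (M + Matrix.of ((MeasurableEquiv.piFinSuccAbove
        (fun _ : Fin (m+1) => Fin (m+1) → ℝ) 0).symm (g, R))) with hA
    set t := mm + ∑ i, g i * u i with ht
    have hAu : A *ᵥ u = fun i => if i = 0 then t else 0 := by
      ext i
      refine Fin.cases ?_ (fun j => ?_) i
      · simp only [if_true, mulVec, dotProduct, hA, hcons, Matrix.add_apply, Matrix.of_apply,
          Fin.cons_zero, add_mul, Finset.sum_add_distrib, ht, hmm]
      · have := congrFun huA j.succ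
        rw [if_neg (Fin.succ_ne_zero j)]
        simp only [hA0, mulVec, dotProduct, hcons, Matrix.updateRow_ne (Fin.succ_ne_zero j),
          Matrix.add_apply, Matrix.of_apply, Fin.cons_succ, Pi.zero_apply] at this
        simp only [hA, mulVec, dotProduct, hcons, Matrix.add_apply, Matrix.of_apply, Fin.cons_succ]
        exact this
    have ht0 : t ≠ 0 := by
      intro h
      have h0 : A *ᵥ u = 0 := by
        rw [hAu, h]; ext i; simp
      have hu0 : u ≠ 0 := by
        intro h'
        rw [h'] at hu1; simp at hu1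
      exact hg (Matrix.exists_mulVec_eq_zero_iff.1 ⟨u, hu0, h0⟩)
    have hinv : A⁻¹ *ᵥ z = (r / t) • u := by
      have h1 : A *ᵥ ((r / t) • u) = z := by
        rw [Matrix.mulVec_smul, hAu, hz]
        ext i
        simp only [Pi.smul_apply, smul_eq_mul, mul_ite, mul_zero]
        rw [div_mul_cancel₀ _ ht0]
      rw [← h1, Matrix.mulVec_mulVec, Matrix.nonsing_inv_mul _ (isUnit_iff_ne_zero.2 hg),
        Matrix.one_mulVec]
    unfold Fz
    rw [if_neg hg, hinv]
    congr 2
    simp only [Pi.smul_apply, smul_eq_mul, mul_pow, ← Finset.mul_sum, hu1, mul_one]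
    rw [Real.sq_sqrt hd.le, div_pow]
    field_simp
  rw [lintegral_congr_ae (hR.mono hcomp)]
  have hld := lintegral_dot u hu1
    (fun t => ENNReal.ofReal (Real.exp (-((Real.sqrt d * r) ^ 2 / (2 * (mm + t) ^ 2)))))
    (by fun_prop)
  rw [hld]
  exact levy_shift (mul_pos (Real.sqrt_pos.2 hd) hr) mm

end Pool.Agent.W168.SV
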