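import Mathlib
import Pool.Agent.W168.SV.Inner

set_option autoImplicit false
open MeasureTheory ProbabilityTheory Set Matrix
open scoped ENNReal RealInnerProductSpace
open Pool.Agent.W813.SV (gm gram)

namespace Pool.Agent.W168.SV

/-- orthogonal matrix taking `z` to a multiple of the first basis vector -/
lemma exists_rot {m : ℕ} (z : Fin (m+1) → ℝ) (hz : z ≠ 0) :
    ∃ Q : Matrix (Fin (m+1)) (Fin (m+1)) ℝ, Qᵀ * Q = 1 ∧
      Q *ᵥ z = fun i => if i = 0 then Real.sqrt (∑ i, z i ^ 2) else 0 := by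
  classical
  set a : EuclideanSpace ℝ (Fin (m+1)) := WithLp.toLp 2 z with ha
  have hn : ‖a‖ = Real.sqrt (∑ i, z i ^ 2) := by
    rw [EuclideanSpace.norm_eq]; simp [ha]
  have ha0 : a ≠ 0 := by
    intro h; apply hz
    have := congrArg WithLp.ofLp h
    simpa [ha] using this
  have hn0 : 0 < ‖a‖ := norm_pos_iff.2 ha0
  let v : Fin (m+1) → EuclideanSpace ℝ (Fin (m+1)) := fun _ => (‖a‖)⁻¹ • a
  have hv : Orthonormal ℝ (({0} : Set (Fin (m+1))).domRestrict v) := by
    constructor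
    · intro i
      show ‖(‖a‖)⁻¹ • a‖ = 1
      rw [norm_smul, norm_inv, norm_norm, inv_mul_cancel₀ hn0.ne']
    · intro i j hij
      exact absurd (Subsingleton.elim i j) hij
  obtain ⟨b, hb⟩ := hv.exists_orthonormalBasis_extension_of_card_eq (by simp)
  have hb0 : b 0 = (‖a‖)⁻¹ • a := hb 0 (by simp)
  have hbb : ∀ i j, (b i).ofLp ⬝ᵥ (b j).ofLp = if i = j then 1 else 0 := by
    intro i j
    have := orthonormal_iff_ite.1 b.orthonormal i j
    rw [PiLp.inner_apply] at this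
    simp only [RCLike.inner_apply, conj_trivial] at this
    rw [← this]
    simp [dotProduct, mul_comm]
  refine ⟨Matrix.of fun i k => (b i).ofLp k, ?_, ?_⟩
  · rw [mul_eq_one_comm]
    ext i j
    rw [Matrix.mul_apply, Matrix.one_apply, ← hbb i j]
    simp [dotProduct]
  · ext i
    have hz' : z = ‖a‖ • (b 0).ofLp := by
      rw [hb0]
      ext k
      have : (‖a‖ • ((‖a‖)⁻¹ • a).ofLp) k = (‖a‖ * (‖a‖)⁻¹) * z k := by
        simp [ha, ← mul_assoc]
      rw [this, mul_inv_cancel₀ hn0.ne', one_mul]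
    have : (Matrix.of fun i k => (b i).ofLp k) *ᵥ z = fun i => ‖a‖ * ((b i).ofLp ⬝ᵥ (b 0).ofLp) := by
      ext i
      conv_lhs => rw [hz']
      rw [Matrix.mulVec_smul]
      simp [mulVec, dotProduct]
    rw [this]
    simp only [hbb, ← hn]
    split_ifs <;> simp

lemma Fz_rot {n : ℕ} (d : ℝ) (Q A : Matrix (Fin n) (Fin n) ℝ) (hQ : Qᵀ * Q = 1) (z : Fin n → ℝ) :
    Fz d (Q * A) (Q *ᵥ z) = Fz d A z := by
  have hdet : Q.det ≠ 0 := by
    intro h
    have := congrArg Matrix.det hQ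
    rw [Matrix.det_mul, h, mul_zero, Matrix.det_one] at this
    exact zero_ne_one this
  unfold Fz
  have h1 : (Q * A).det = 0 ↔ A.det = 0 := by
    rw [Matrix.det_mul, mul_eq_zero]; simp [hdet]
  by_cases hA : A.det = 0
  · rw [if_pos (h1.2 hA), if_pos hA]
  · rw [if_neg (mt h1.1 hA), if_neg hA, Matrix.mul_inv_rev, Matrix.mulVec_mulVec, Matrix.mul_assoc,
      Matrix.nonsing_inv_mul _ (isUnit_iff_ne_zero.2 hdet), Matrix.mul_one]

/-- inner bound for a fixed vector `z` -/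
lemma inner_z {n : ℕ} {d : ℝ} (hd : 0 < d) (M : Matrix (Fin n) (Fin n) ℝ) (z : Fin n → ℝ) :
    ENNReal.ofReal (Real.exp (-(Real.sqrt d * Real.sqrt (∑ i, z i ^ 2)))) ≤
      ∫⁻ G, Fz d (M + Matrix.of G) z ∂(gm n) := by
  by_cases hz : z = 0
  · have h1 : ∫⁻ G, Fz d (M + Matrix.of G) z ∂(gm n) = ∫⁻ _G, 1 ∂(gm n) := by
      refine lintegral_congr_ae ?_
      filter_upwards [ae_det_ne M] with G hG
      unfold Fz
      rw [if_neg hG, hz]
      simp
    rw [h1]
    simp [hz]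
  · match n, M, z, hz with
    | 0, M, z, hz => exact absurd (Subsingleton.elim z 0) hz
    | m+1, M, z, hz =>
      obtain ⟨Q, hQ, hQz⟩ := exists_rot z hz
      have hpos : 0 < Real.sqrt (∑ i, z i ^ 2) := by
        refine Real.sqrt_pos.2 ?_
        obtain ⟨i, hi⟩ := Function.ne_iff.1 hz
        exact Finset.sum_pos' (fun i _ => sq_nonneg _) ⟨i, Finset.mem_univ _, by
          have : z i ≠ 0 := hi
          positivity⟩
      have h1 := inner_e0 hd (Q * M) hpos
      refine h1.trans (le_of_eq ?_)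
      rw [← hQz]
      have hR : Measurable (fun G : Fin (m+1) → Fin (m+1) → ℝ => (fun i j => (Q * Matrix.of G) i j)) := by
        refine measurable_pi_lambda _ fun i => measurable_pi_lambda _ fun j => ?_
        simp only [Matrix.mul_apply, Matrix.of_apply]
        fun_prop
      have h2 : ∫⁻ G, Fz d (Q * M + Matrix.of G) (Q *ᵥ z) ∂(gm (m+1)) =
          ∫⁻ G, Fz d (Q * M + Q * Matrix.of G) (Q *ᵥ z) ∂(gm (m+1)) := by
        conv_lhs => rw [← gm_rot Q hQ]
        rw [lintegral_map (Fz_meas' d (Q * M) (Q *ᵥ z)) hR]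
        rfl
      rw [h2]
      refine lintegral_congr fun G => ?_
      rw [← Matrix.mul_add, Fz_rot d Q _ hQ]

/-- the determinant ratio as a Gaussian average -/
lemma outer {n : ℕ} {d : ℝ} (hd : 0 < d) (A : Matrix (Fin n) (Fin n) ℝ) :
    ∫⁻ z, Fz d A z ∂(gv (Fin n)) ≤
      ENNReal.ofReal (Real.sqrt ((A * Aᵀ).det / (A * Aᵀ + d • (1 : Matrix (Fin n) (Fin n) ℝ)).det)) := by
  by_cases hA : A.det = 0
  · have : ∀ z, Fz d A z = 0 := fun z => by unfold Fz; rw [if_pos hA]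
    simp [this]
  have hu : IsUnit A.det := isUnit_iff_ne_zero.2 hA
  set P : Matrix (Fin n) (Fin n) ℝ := (A⁻¹)ᵀ * A⁻¹ with hP
  set R : Matrix (Fin n) (Fin n) ℝ := 1 + d • P with hR
  have hPs : P.PosSemidef := by
    have := Matrix.posSemidef_conjTranspose_mul_self A⁻¹
    rwa [Matrix.conjTranspose_eq_transpose_of_trivial] at this
  have hRp : R.PosDef := Matrix.PosDef.one.add_posSemidef (hPs.smul hd.le)
  have hPW : P * (A * Aᵀ) = 1 := by
    rw [hP, Matrix.mul_assoc, ← Matrix.mul_assoc A⁻¹, Matrix.nonsing_inv_mul _ hu, Matrix.one_mul,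
      ← Matrix.transpose_mul, Matrix.mul_nonsing_inv _ hu, Matrix.transpose_one]
  have hRW : R * (A * Aᵀ) = A * Aᵀ + d • 1 := by
    rw [hR, Matrix.add_mul, Matrix.one_mul, Matrix.smul_mul, hPW]
  have hdet : R.det * (A * Aᵀ).det = (A * Aᵀ + d • (1 : Matrix (Fin n) (Fin n) ℝ)).det := by
    rw [← hRW, Matrix.det_mul R]
  have hWd : (A * Aᵀ).det ≠ 0 := by
    rw [Matrix.det_mul, Matrix.det_transpose]; exact mul_ne_zero hA hA
  have hrat : (A * Aᵀ).det / (A * Aᵀ + d • (1 : Matrix (Fin n) (Fin n) ℝ)).det = (R.det)⁻¹ := by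
    rw [← hdet, div_mul_cancel_right₀ hWd]
  rw [hrat, Real.sqrt_inv, ← quad R hRp]
  refine le_of_eq (lintegral_congr fun z => ?_)
  unfold Fz
  rw [if_neg hA]
  congr 4
  have h1 : z ⬝ᵥ R *ᵥ z - z ⬝ᵥ z = d * (z ⬝ᵥ P *ᵥ z) := by
    rw [hR, Matrix.add_mulVec, Matrix.one_mulVec, dotProduct_add, Matrix.smul_mulVec,
      dotProduct_smul, smul_eq_mul]
    ring
  have h2 : z ⬝ᵥ P *ᵥ z = (A⁻¹ *ᵥ z) ⬝ᵥ (A⁻¹ *ᵥ z) := by
    rw [hP, ← Matrix.mulVec_mulVec, Matrix.dotProduct_mulVec, Matrix.vecMul_transpose]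
  rw [h1, h2]
  simp [dotProduct, sq]

/-- second moment -/
lemma sq_int : ∫⁻ x, ENNReal.ofReal (x ^ 2) ∂(gaussianReal 0 1) = 1 := by
  have h := variance_fun_id_gaussianReal (μ := 0) (v := 1)
  rw [variance_eq_integral (by fun_prop)] at h
  simp only [integral_id_gaussianReal, sub_zero, NNReal.coe_one] at h
  rw [← ofReal_integral_eq_lintegral_ofReal, h, ENNReal.ofReal_one]
  · by_contra hni
    rw [integral_undef hni] at h
    exact zero_ne_one h
  · exact Filter.Eventually.of_forall fun x => sq_nonneg x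

lemma sq_sum_int {n : ℕ} :
    ∫⁻ z, ENNReal.ofReal (∑ i, z i ^ 2) ∂(gv (Fin n)) = n := by
  have h1 : ∀ z : Fin n → ℝ, ENNReal.ofReal (∑ i, z i ^ 2) = ∑ i, ENNReal.ofReal (z i ^ 2) := by
    intro z
    rw [ENNReal.ofReal_sum_of_nonneg (fun i _ => sq_nonneg _)]
  simp_rw [h1]
  rw [lintegral_finsetSum _ (fun i _ => by fun_prop)]
  have h2 : ∀ i : Fin n, ∫⁻ z, ENNReal.ofReal (z i ^ 2) ∂(gv (Fin n)) = 1 := by
    intro i
    have hmp := measurePreserving_eval (fun _ : Fin n => gaussianReal 0 1) i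
    rw [← sq_int]
    exact hmp.lintegral_comp (f := fun x => ENNReal.ofReal (x ^ 2)) (by fun_prop)
  simp [h2]

/-- Jensen -/
lemma jensen {n : ℕ} {d : ℝ} (hd : 0 < d) :
    ENNReal.ofReal (Real.exp (-Real.sqrt (n * d))) ≤
      ∫⁻ z, ENNReal.ofReal (Real.exp (-(Real.sqrt d * Real.sqrt (∑ i, z i ^ 2)))) ∂(gv (Fin n)) := by
  rcases Nat.eq_zero_or_pos n with rfl | hn
  · simp
  have hn' : (0:ℝ) < n := by exact_mod_cast hn
  set a := Real.sqrt (n * d) with ha
  have ha' : a = Real.sqrt n * Real.sqrt d := by rw [ha, Real.sqrt_mul hn'.le]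
  have hsn : 0 < Real.sqrt n := Real.sqrt_pos.2 hn'
  have hsd : 0 < Real.sqrt d := Real.sqrt_pos.2 hd
  have ha0 : 0 < a := by rw [ha']; positivity
  -- pointwise tangent line bound
  have hpt : ∀ S : ℝ, 0 ≤ S → Real.exp (-a) * (1 + a) ≤
      Real.exp (-(Real.sqrt d * Real.sqrt S)) + Real.exp (-a) * (a * (S + n) / (2 * n)) := by
    intro S hS
    set t := Real.sqrt S with ht
    have ht2 : t ^ 2 = S := Real.sq_sqrt hS
    have h1 : Real.exp (-a) * (1 + (a - Real.sqrt d * t)) ≤ Real.exp (-(Real.sqrt d * t)) := by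
      have := Real.add_one_le_exp (a - Real.sqrt d * t)
      calc Real.exp (-a) * (1 + (a - Real.sqrt d * t)) ≤
          Real.exp (-a) * Real.exp (a - Real.sqrt d * t) := by
            apply mul_le_mul_of_nonneg_left _ (Real.exp_nonneg _); linarith
        _ = Real.exp (-(Real.sqrt d * t)) := by rw [← Real.exp_add]; congr 1; ring
    have h2 : Real.sqrt d * t ≤ a * (S + n) / (2 * n) := by
      rw [le_div_iff₀ (by positivity), ha', ← ht2]
      have hnn : (n:ℝ) = Real.sqrt n ^ 2 := (Real.sq_sqrt hn'.le).symm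
      have : Real.sqrt n * Real.sqrt d * (t ^ 2 + n) - Real.sqrt d * t * (2 * n) =
          Real.sqrt n * Real.sqrt d * (t - Real.sqrt n) ^ 2 := by
        have e : (n:ℝ) = Real.sqrt n * Real.sqrt n := by rw [Real.mul_self_sqrt hn'.le]
        calc Real.sqrt n * Real.sqrt d * (t ^ 2 + n) - Real.sqrt d * t * (2 * n)
            = Real.sqrt n * Real.sqrt d * (t ^ 2 + n) - Real.sqrt d * t * (2 * (Real.sqrt n * Real.sqrt n)) := by
              rw [← e]
          _ = Real.sqrt n * Real.sqrt d * (t ^ 2 - 2 * t * Real.sqrt n + n) := by ring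
          _ = Real.sqrt n * Real.sqrt d * (t - Real.sqrt n) ^ 2 := by
              rw [sub_sq, Real.sq_sqrt hn'.le]
      have h3 : 0 ≤ Real.sqrt n * Real.sqrt d * (t - Real.sqrt n) ^ 2 := by positivity
      linarith
    have h3 := mul_le_mul_of_nonneg_left h2 (Real.exp_nonneg (-a))
    nlinarith [h1, h3]
  have hI : ∫⁻ _z, ENNReal.ofReal (Real.exp (-a) * (1 + a)) ∂(gv (Fin n)) ≤
      ∫⁻ z, (ENNReal.ofReal (Real.exp (-(Real.sqrt d * Real.sqrt (∑ i, z i ^ 2)))) +
        ENNReal.ofReal (Real.exp (-a) * (a / (2 * n))) * (ENNReal.ofReal (∑ i, z i ^ 2) +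
          ENNReal.ofReal n)) ∂(gv (Fin n)) := by
    refine lintegral_mono fun z => ?_
    have hS : 0 ≤ ∑ i, z i ^ 2 := Finset.sum_nonneg fun i _ => sq_nonneg _
    rw [← ENNReal.ofReal_add hS hn'.le, ← ENNReal.ofReal_mul (by positivity),
      ← ENNReal.ofReal_add (Real.exp_nonneg _) (by positivity)]
    refine ENNReal.ofReal_le_ofReal ?_
    refine (hpt _ hS).trans (le_of_eq ?_)
    ring
  have hm1 : Measurable (fun z : Fin n → ℝ =>
      ENNReal.ofReal (Real.exp (-(Real.sqrt d * Real.sqrt (∑ i, z i ^ 2))))) := by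
    fun_prop
  rw [lintegral_add_left hm1, lintegral_const_mul _ (by fun_prop),
    lintegral_add_right _ measurable_const, sq_sum_int] at hI
  simp only [lintegral_const, measure_univ, mul_one, ENNReal.ofReal_natCast] at hI
  have hc : ENNReal.ofReal (Real.exp (-a) * (a / (2 * n))) * ((n : ℝ≥0∞) + n) =
      ENNReal.ofReal (Real.exp (-a) * a) := by
    rw [← ENNReal.ofReal_natCast n, ← ENNReal.ofReal_add hn'.le hn'.le,
      ← ENNReal.ofReal_mul (by positivity)]
    congr 1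
    field_simp
    ring
  rw [hc, mul_add, mul_one, ENNReal.ofReal_add (Real.exp_nonneg _) (by positivity)] at hI
  exact (ENNReal.add_le_add_iff_right ENNReal.ofReal_ne_top).1 hI

/-- Part 2 of the proof of MP_30e781_pr. -/
theorem part2 : Pool.Agent.W813.SV.Part2 := by
  intro n M d hd
  calc ENNReal.ofReal (Real.exp (-Real.sqrt (n * d)))
      ≤ ∫⁻ z, ENNReal.ofReal (Real.exp (-(Real.sqrt d * Real.sqrt (∑ i, z i ^ 2)))) ∂(gv (Fin n)) :=
        jensen hd
    _ ≤ ∫⁻ z, ∫⁻ G, Fz d (M + Matrix.of G) z ∂(gm n) ∂(gv (Fin n)) :=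
        lintegral_mono fun z => inner_z hd M z
    _ = ∫⁻ G, ∫⁻ z, Fz d (M + Matrix.of G) z ∂(gv (Fin n)) ∂(gm n) := by
        rw [lintegral_lintegral_swap]
        exact ((Fz_meas d M).comp measurable_swap).aemeasurable
    _ ≤ ∫⁻ G, ENNReal.ofReal (Real.sqrt ((gram M G).det /
      (gram M G + d • (1 : Matrix (Fin n) (Fin n) ℝ)).det)) ∂(gm n) :=
        lintegral_mono fun G => outer hd _

end Pool.Agent.W168.SV
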